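import Pool.Agent.H.MP_611141_gt.H

open Filter Topology Set
open scoped ContDiff Manifold

namespace Pool.Agent.Results.MP_611141_gt.Equiv

open Pool.Agent.H.MP_611141_gt

theorem span_open {E : Type*} [NormedAddCommGroup E] [NormedSpace ℝ E] (B : E →L[ℝ] E →L[ℝ] ℝ)
    {S : Set ℝ} (hS : IsOpen S) (h0 : (0 : ℝ) ∉ S) (h : ∃ v, B v v ∈ S) :
    Submodule.span ℝ {v | v ≠ 0 ∧ B v v ∈ S} = ⊤ := by
  obtain ⟨v, hv⟩ := h
  refine Submodule.eq_top_of_nonempty_interior' _ ⟨v, mem_interior_iff_mem_nhds.2 ?_⟩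
  have c : Continuous fun v => B v v := by fun_prop
  filter_upwards [(hS.preimage c).mem_nhds hv] with w hw
  exact Submodule.subset_span ⟨fun e => h0 (by simpa [e] using hw), hw⟩

theorem span_null {E : Type*} [NormedAddCommGroup E] [NormedSpace ℝ E] (B : E →L[ℝ] E →L[ℝ] ℝ)
    (h : ∃ v, B v v < 0) (h' : ∃ v, 0 < B v v) :
    Submodule.span ℝ {v | v ≠ 0 ∧ B v v = 0} = ⊤ := by
  obtain ⟨n, hn⟩ := h
  have k : ∀ v, B v v = 0 → v ∈ Submodule.span ℝ {v | v ≠ 0 ∧ B v v = 0} := fun v hv => by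
    rcases eq_or_ne v 0 with rfl | h
    · exact Submodule.zero_mem _
    · exact Submodule.subset_span ⟨h, hv⟩
  have root : ∀ n u, B n n < 0 → 0 < B u u → ∃ t : ℝ, 0 < t ∧ B (u + t • n) (u + t • n) = 0 :=
    fun n u hn hu => by
    have c : Continuous fun t : ℝ => B ((1 - t) • u + t • n) ((1 - t) • u + t • n) := by fun_prop
    obtain ⟨t, ht, e⟩ := intermediate_value_Ioo' zero_le_one c.continuousOn
      (show (0 : ℝ) ∈ Ioo _ _ from ⟨by simpa using hn, by simpa using hu⟩)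
    have t1 := sub_pos.2 ht.2
    have e' : u + (t / (1 - t)) • n = (1 - t)⁻¹ • ((1 - t) • u + t • n) := by
      match_scalars <;> field_simp
    refine ⟨t / (1 - t), div_pos ht.1 t1, ?_⟩
    rw [e', map_smul, map_smul, ContinuousLinearMap.smul_apply]
    simp only [e, smul_zero]
  refine top_le_iff.1 ((span_open B isOpen_Ioi (by simp) h').ge.trans
    (Submodule.span_le.2 fun u hu => ?_))
  obtain ⟨t, t0, ht⟩ := root n u hn hu.2
  obtain ⟨s, s0, hs⟩ := root (-n) u (by simpa using hn) hu.2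
  have e : u = (s / (s + t)) • (u + t • n) + (t / (s + t)) • (u + s • -n) := by
    match_scalars <;> field_simp <;> ring
  rw [e]
  exact Submodule.add_mem _ (Submodule.smul_mem _ _ (k _ ht)) (Submodule.smul_mem _ _ (k _ hs))

theorem result {E : Type*} [NormedAddCommGroup E] [NormedSpace ℝ E] [FiniteDimensional ℝ E]
    {M : Type*} [TopologicalSpace M] [T2Space M] [ChartedSpace E M] [IsManifold 𝓘(ℝ, E) ∞ M]
    (g : M → E →L[ℝ] E →L[ℝ] ℝ)
    (smooth : ∀ y, ContDiffOn ℝ ∞ (Gc g y) (chartAt E y).target)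
    (symm : ∀ x u v, g x u v = g x v u)
    (nondeg : ∀ x u, (∀ v, g x u v = 0) → u = 0)
    (indef : ∀ x, (∃ v, g x v v < 0) ∧ ∃ v, 0 < g x v v) (r : ℕ)
    (hr : ∀ y, ∀ z ∈ (chartAt E y).target, ∀ v, covR (Gc g y) r z v = 0) :
    (Complete g (fun s => s < 0) ↔ Complete g (fun s => s = 0)) ∧
      (Complete g (fun s => s = 0) ↔ Complete g (fun s => 0 < s)) := by
  have hg : PM g := ⟨smooth, symm, nondeg⟩
  have key : ∀ P P' : ℝ → Prop, (∀ x, Submodule.span ℝ {v | v ≠ 0 ∧ P (g x v v)} = ⊤) →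
      Complete g P → Complete g P' := fun P P' hs hP γ => by
    obtain ⟨v, hv⟩ := (indef (γ 0)).1
    have := nontrivial_of_ne v 0 (by rintro rfl; simp at hv)
    exact hg.main hr hP hs P' γ
  have s1 := fun x => span_open (g x) isOpen_Iio (by simp) (indef x).1
  have s2 := fun x => span_null (g x) (indef x).1 (indef x).2
  have s3 := fun x => span_open (g x) isOpen_Ioi (by simp) (indef x).2
  exact ⟨⟨key _ _ s1, key _ _ s2⟩, key _ _ s2, key _ _ s3⟩

end Pool.Agent.Results.MP_611141_gt.Equiv
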